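import Pool.Agent.Helper67.BT.Stmts

/-!
Project DF (MP_10bc19_gt): the exponents between 2 and 11/5 in all dimensions. Definitions.
-/

open Finset MeasureTheory

namespace Pool.Agent.Helper67.DF

open Pool.Agent.Helper67.BT (E PG Sp)

/-- families of even potentials of one variable with derivatives `ψ`, `w`, the second derivative
being at least `c` and Hölder continuous with exponent `α` and constant `K` -/
structure PF {n : ℕ} (c K α : ℝ) (U ψ w : Fin n → ℝ → ℝ) : Prop where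
  c0 : 0 < c
  K0 : 0 ≤ K
  a0 : 0 < α
  a1 : α ≤ 1
  ev : ∀ l t, U l (-t) = U l t
  dU : ∀ l t, HasDerivAt (U l) (ψ l t) t
  dp : ∀ l t, HasDerivAt (ψ l) (w l t) t
  lo : ∀ l t, c ≤ w l t
  ho : ∀ l s t, |w l s - w l t| ≤ K * |s - t| ^ α

/-- the potential -/
noncomputable def VV {n k : ℕ} (a : Fin n → E k) (U : Fin n → ℝ → ℝ) (x : E k) : ℝ :=
  ∑ l, U l (inner ℝ (a l) x)

/-- integrals against `exp (- V)` -/
noncomputable def J {n k : ℕ} (a : Fin n → E k) (U : Fin n → ℝ → ℝ) (F : E k → ℝ) : ℝ :=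
  ∫ x, F x * Real.exp (-(VV a U x))

/-- averages -/
noncomputable def Av {n k : ℕ} (a : Fin n → E k) (U : Fin n → ℝ → ℝ) (F : E k → ℝ) : ℝ :=
  J a U F / J a U fun _ => 1

/-- the values of the linear forms -/
noncomputable def bb {n k : ℕ} (a : Fin n → E k) (z : E k) (l : Fin n) : ℝ := inner ℝ (a l) z

/-- the rotated potentials -/
noncomputable def rU {n : ℕ} (U : Fin n → ℝ → ℝ) (b : Fin n → ℝ) (l : Fin n) (t : ℝ) : ℝ :=
  U l ((t + b l) / √2) + U l ((t - b l) / √2)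

/-- the rotated first derivatives -/
noncomputable def rP {n : ℕ} (ψ : Fin n → ℝ → ℝ) (b : Fin n → ℝ) (l : Fin n) (t : ℝ) : ℝ :=
  (ψ l ((t + b l) / √2) + ψ l ((t - b l) / √2)) / √2

/-- the rotated second derivatives -/
noncomputable def rW {n : ℕ} (w : Fin n → ℝ → ℝ) (b : Fin n → ℝ) (l : Fin n) (t : ℝ) : ℝ :=
  (w l ((t + b l) / √2) + w l ((t - b l) / √2)) / 2

/-- first point of the rotated pair -/
noncomputable def xp {k : ℕ} (u z : E k) : E k := (√2)⁻¹ • (u + z)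

/-- second point of the rotated pair -/
noncomputable def xm {k : ℕ} (u z : E k) : E k := (√2)⁻¹ • (u - z)

/-- the inequality for Gaussian measures: `X` is the inverse of `∑ ω_l a_l ⊗ a_l` -/
def GH {n k : ℕ} (a m : Fin n → E k) (φ : Fin n → ℝ → ℝ) : Prop :=
  ∀ (ω : Fin n → ℝ) (X : E k →ₗ[ℝ] E k), (∀ l, 0 < ω l) →
    (∀ y, X (∑ l, (ω l * inner ℝ (a l) y) • a l) = y) →
    ∑ l, φ l (ω l) ≤ ∑ l, ω l * inner ℝ (X (a l)) (m l)

/-- concave functions, locally Lipschitz on `[c, ∞)` -/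
def FH {n : ℕ} (c L : ℝ) (φ : Fin n → ℝ → ℝ) : Prop :=
  (∀ l, ConcaveOn ℝ (Set.Ioi 0) (φ l)) ∧
    ∀ l s t, c ≤ s → c ≤ t → |φ l s - φ l t| ≤ L * (1 + s + t) * |s - t|

/-- `b` gives the derivative of `f` in the linear forms `a`, with a Hölder remainder -/
def TH {n k : ℕ} (a : Fin n → E k) (α : ℝ) (f : E k → ℝ) (b : Fin n → E k → ℝ) : Prop :=
  ∀ R : ℝ, ∃ C : ℝ, ∀ x h : E k, ‖x‖ ≤ R → ‖x + h‖ ≤ R →
    |f (x + h) - f x - ∑ l, b l x * inner ℝ (a l) h| ≤ C * ‖h‖ ^ (1 + α)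

/-- isotropic position -/
def Iso {n k : ℕ} (s : Fin n → ℝ) (a : Fin n → E k) : Prop :=
  ∀ x y : E k, ∑ l, s l * inner ℝ (a l) x * inner ℝ (a l) y = inner ℝ x y

/-- the matrix `∑ s_l v_l a_l ⊗ a_l` -/
noncomputable def AA {n k : ℕ} (s v : Fin n → ℝ) (a : Fin n → E k) : E k →ₗ[ℝ] E k :=
  ∑ l, (s l * v l) • ((innerₛₗ ℝ (a l)).smulRight (a l))

/-- the vectors `(v_l - A) a_l` -/
noncomputable def nv {n k : ℕ} (s v : Fin n → ℝ) (a : Fin n → E k) (l : Fin n) : E k :=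
  v l • a l - AA s v a (a l)

/-- the vectors `(v_l - A)^2 a_l` -/
noncomputable def mv {n k : ℕ} (s v : Fin n → ℝ) (a : Fin n → E k) (l : Fin n) : E k :=
  v l • nv s v a l - AA s v a (nv s v a l)

/-- the size of the vectors `(v_l - A) a_l` -/
noncomputable def NN {n k : ℕ} (s v : Fin n → ℝ) (a : Fin n → E k) : ℝ :=
  ∑ l, s l * ‖nv s v a l‖ ^ 2

/-- the column sums -/
noncomputable def Cl {n k : ℕ} (s v : Fin n → ℝ) (a : Fin n → E k) (l : Fin n) : ℝ :=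
  ∑ j, s j * s l * inner ℝ (a l) (nv s v a j) ^ 2

/-- the concave minorant -/
noncomputable def ph {n k : ℕ} (s v : Fin n → ℝ) (a : Fin n → E k) (l : Fin n) (ω : ℝ) : ℝ :=
  s l * ‖nv s v a l‖ ^ 2 * (3 - s l / ω - 2 * (ω / s l - 2 + s l / ω)
    - 5 / 2 * (ω / s l - 2 + s l / ω) ^ 2)
  - Cl s v a l * (ω / s l + 2 / 5 * ((s l / ω) ^ 2 + 2 * (ω / s l) - 3))

/-- the potential `|t|^(11/5) + c t^2` -/
noncomputable def Uc (c t : ℝ) : ℝ := |t| ^ (11 / 5 : ℝ) + c * t ^ 2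

/-- its derivative -/
noncomputable def Pc (c t : ℝ) : ℝ := 11 / 5 * (|t| ^ (1 / 5 : ℝ) * t) + 2 * c * t

/-- its second derivative -/
noncomputable def Wc (c t : ℝ) : ℝ := 66 / 25 * |t| ^ (1 / 5 : ℝ) + 2 * c

/-- constant families -/
def cf {n : ℕ} (f : ℝ → ℝ) : Fin n → ℝ → ℝ := fun _ => f

end Pool.Agent.Helper67.DF
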