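import Pool.Agent.Helper18.DF.BLB
import Pool.Agent.Helper2.DF.GAU
import Pool.Agent.Helper2.DF.SEC
import Pool.Agent.Helper2.DF.STEP
import Pool.Agent.Helper25.DF.DID
import Pool.Agent.Helper25.DF.GAM
import Pool.Agent.Helper25.DF.MAR
import Pool.Agent.Helper28.DF.EBL
import Pool.Agent.Helper28.DF.LM
import Pool.Agent.Helper34.DF.CLR
import Pool.Agent.Helper34.DF.PHF
import Pool.Agent.Helper34.DF.ROT
import Pool.Agent.Helper34.DF.UC
import Pool.Agent.Helper46.DF.CR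
import Pool.Agent.Helper46.DF.QB
import Pool.Agent.Helper46.DF.VB
import Pool.Agent.Helper51.DF.IBM
import Pool.Agent.Helper51.DF.WB
import Pool.Agent.Helper53.DF.BLL
import Pool.Agent.Helper53.DF.IG
import Pool.Agent.Helper53.DF.PB
import Pool.Agent.Helper53.DF.PSN
import Pool.Agent.Helper55.DF.COL
import Pool.Agent.Helper55.DF.GAQ
import Pool.Agent.Helper56.DF.IBP
import Pool.Agent.Helper56.DF.MOM
import Pool.Agent.Helper58.DF.MW
import Pool.Agent.Helper65.DF.LOC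
import Pool.Agent.Helper78.DF.BQ
import Pool.Agent.Helper78.DF.INC
import Pool.Agent.Helper78.DF.LEAF
import Pool.Agent.Helper78.DF.RPI
import Pool.Agent.Helper79.DF.CHG
import Pool.Agent.Helper79.DF.FIN

/-!
Project DF (MP_10bc19_gt): assembly of the proof.
-/

namespace Pool.Agent.Helper67.DF

open Pool.Agent

theorem fin : ST_FIN := by
  have hPB : ST_PB := st_PB
  have hIG : ST_IG := st_IG hPB
  have hCLR : ST_CLR := Helper34.DF.st_CLR
  have hROE : ST_ROE := Helper34.DF.st_ROE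
  have hIBP : ST_IBP := Helper56.DF.st_IBP hIG
  have hIBM : ST_IBM := Helper51.DF.st_IBM hIG hIBP
  have hMOM : ST_MOM := Helper56.DF.st_MOM hIBM hIG
  have hBQ : ST_BQ := Helper78.DF.st_BQ
  have hLEAF : ST_LEAF := Helper78.DF.st_LEAF hMOM hIBP hBQ hPB hIG
  have hSTEP : ST_STEP := st_STEP hROE hIG hPB hCLR
  have hRPI : ST_RPI := Helper78.DF.st_RPI hLEAF hSTEP hCLR
  have hBLB : ST_BLB := Helper18.DF.st_BLB hPB
  have hBLL : ST_BLL := st_BLL hBLB hIG
  have hEBL : ST_EBL := Helper28.DF.st_EBL hBLL hROE hCLR hPB hIG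
  have hGAQ : ST_GAQ := Helper55.DF.st_GAQ hBQ
  have hGAU : ST_GAU := st_GAU hGAQ hBQ
  have hPHF : ST_PHF := Helper34.DF.st_PHF
  have hMAR : ST_MAR := Helper25.DF.st_MAR hIG
  have hCOL : ST_COL := Helper55.DF.st_COL
  have hGAM : ST_GAM := Helper25.DF.st_GAM
  have hMW : ST_MW := Helper58.DF.st_MW hIG hMAR hCOL hGAM
  have hLM : ST_LM := Helper28.DF.st_LM hMAR hCOL hIG
  have hUC : ST_UC := Helper34.DF.st_UC
  have hWB : ST_WB := Helper51.DF.st_WB hMW hUC hIG
  have hDID : ST_DID := Helper25.DF.st_DID hIBM hUC hIG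
  have hQB : ST_QB := Helper46.DF.st_QB hIG hUC hWB hRPI hGAU hPHF
  have hCR : ST_CR := Helper46.DF.st_CR hIG hUC hWB hIBP hBLL
  have hLB : ST_LB := Helper46.DF.st_LB hIG hUC hWB hCR hLM
  have hVB : ST_VB := Helper46.DF.st_VB hIG hUC hWB hPB hBLL hEBL hCR hLM
  have hASM : ST_ASM := Helper46.DF.st_ASM hWB hDID hQB hLB hVB
  have hINC : ST_INC := Helper78.DF.st_INC hASM st_PSN st_CHG hWB
  exact st_FIN (st_SEC (st_LOC hINC))

end Pool.Agent.Helper67.DF
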