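import Pool.Agent.Helper67.DF.Defs

/-!
Project DF (MP_10bc19_gt): statements. The proofs are in the file df_helper67.md.
-/

open Finset MeasureTheory

namespace Pool.Agent.Helper67.DF

open Pool.Agent.Helper67.BT (E PG Sp wt)

/-! ### A. General facts -/

/-- PB: pointwise facts. -/
def ST_PB : Prop := ∀ (n : ℕ) (c K α : ℝ) (U ψ w : Fin n → ℝ → ℝ), PF c K α U ψ w → ∀ l : Fin n,
  Continuous (U l) ∧ Continuous (ψ l) ∧ Continuous (w l) ∧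
  (∀ t, ψ l (-t) = -ψ l t) ∧ (∀ t, w l (-t) = w l t) ∧
  (∀ t, U l 0 + c / 2 * t ^ 2 ≤ U l t) ∧
  (∀ t, |ψ l t - w l 0 * t| ≤ K * |t| ^ (1 + α)) ∧
  (∀ t, |w l t - w l 0| ≤ K * |t| ^ α) ∧
  (∀ t h, |ψ l (t + h) - ψ l t - w l t * h| ≤ K * |h| ^ (1 + α)) ∧
  (∀ t h, c * h ^ 2 ≤ U l (t + h) + U l (t - h) - 2 * U l t) ∧
  ∀ t h, w l t * h ^ 2 - K * |h| ^ (2 + α) ≤ U l (t + h) + U l (t - h) - 2 * U l t

/-- IG: growth and integrability. -/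
def ST_IG : Prop := ∀ (n k : ℕ) (a : Fin n → E k), Sp a → ∀ c : ℝ, 0 < c → ∃ δ : ℝ, 0 < δ ∧
  ∀ (K α : ℝ) (U ψ w : Fin n → ℝ → ℝ), PF c K α U ψ w →
    (∀ x, VV a U 0 + δ * ‖x‖ ^ 2 ≤ VV a U x) ∧ Continuous (VV a U) ∧
    (∀ x, VV a U (-x) = VV a U x) ∧
    (∀ l, PG (fun x : E k => ψ l (inner ℝ (a l) x)) ∧ PG (fun x : E k => w l (inner ℝ (a l) x)) ∧
      PG (fun x : E k => (w l (inner ℝ (a l) x))⁻¹)) ∧
    (∀ F : E k → ℝ, PG F → Integrable fun x => F x * Real.exp (-(VV a U x))) ∧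
    0 < J a U fun _ => 1

/-- CLR: the rotated family. -/
def ST_CLR : Prop := ∀ (n : ℕ) (c K α : ℝ) (U ψ w : Fin n → ℝ → ℝ) (b : Fin n → ℝ),
  PF c K α U ψ w → PF c (K / 2 ^ (α / 2)) α (rU U b) (rP ψ b) (rW w b)

/-- ROT: rotation of the product of two copies. -/
def ST_ROT : Prop := ∀ (k : ℕ) (F : E k × E k → ℝ), Integrable F →
  Integrable (fun q : E k × E k => F (xp q.2 q.1, xm q.2 q.1)) ∧
  ∫ q, F q = ∫ z, ∫ u, F (xp u z, xm u z)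

/-- ROE: the rotation for `exp (- V)`: product functions and sums. -/
def ST_ROE : Prop := ∀ (n k : ℕ) (a : Fin n → E k) (c K α : ℝ) (U ψ w : Fin n → ℝ → ℝ),
  Sp a → PF c K α U ψ w → ∀ G : E k → E k → ℝ,
  Integrable (fun q : E k × E k =>
    G q.1 q.2 * Real.exp (-(VV a U q.1)) * Real.exp (-(VV a U q.2))) →
  Integrable (fun z => J a (rU U (bb a z)) fun u => G (xp u z) (xm u z)) ∧
  ∫ q : E k × E k, G q.1 q.2 * Real.exp (-(VV a U q.1)) * Real.exp (-(VV a U q.2)) =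
    ∫ z, J a (rU U (bb a z)) fun u => G (xp u z) (xm u z)

/-- IBP: integration by parts. -/
def ST_IBP : Prop := ∀ (n k : ℕ) (a : Fin n → E k) (c K α : ℝ) (U ψ w : Fin n → ℝ → ℝ),
  Sp a → PF c K α U ψ w → ∀ (g : E k) (F F' : E k → ℝ), PG F → PG F' →
  (∀ x, HasLineDerivAt ℝ F (F' x) x g) →
  J a U (fun x => F x * ∑ l, ψ l (inner ℝ (a l) x) * inner ℝ (a l) g) = J a U F'

/-- IBM: integration by parts for linear vector fields. -/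
def ST_IBM : Prop := ∀ (n k : ℕ) (a : Fin n → E k) (c K α : ℝ) (U ψ w : Fin n → ℝ → ℝ),
  Sp a → PF c K α U ψ w → ∀ (A : E k →ₗ[ℝ] E k) (F : E k → ℝ) (D : E k → E k), PG F →
  (∀ v, PG fun x => inner ℝ (D x) v) → (∀ x v, HasLineDerivAt ℝ F (inner ℝ (D x) v) x v) →
  J a U (fun x => F x * ∑ l, ψ l (inner ℝ (a l) x) * inner ℝ (a l) (A x)) =
    LinearMap.trace ℝ (E k) A * J a U F + J a U fun x => inner ℝ (D x) (A x)

/-! ### B. The rotation principle -/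

/-- MOM: moments, uniformly in the family. -/
def ST_MOM : Prop := ∀ (n k : ℕ) (a : Fin n → E k), Sp a → ∀ (c : ℝ) (j : ℕ), 0 < c → ∃ M : ℝ,
  ∀ (K α : ℝ) (U ψ w : Fin n → ℝ → ℝ), PF c K α U ψ w →
    J a U (fun x => ‖x‖ ^ (2 * j)) ≤ M * J a U fun _ => 1

/-- LEAF: families with small Hölder constant. -/
def ST_LEAF : Prop := ∀ (n k : ℕ) (a m : Fin n → E k) (φ : Fin n → ℝ → ℝ) (c L α : ℝ),
  Sp a → 0 < c → 0 ≤ L → 0 < α → α ≤ 1 → GH a m φ → FH c L φ → ∃ C : ℝ, 0 ≤ C ∧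
  ∀ (K : ℝ) (U ψ w : Fin n → ℝ → ℝ), K ≤ 1 → PF c K α U ψ w →
    J a U (fun x => ∑ l, φ l (w l (inner ℝ (a l) x))) ≤
      J a U (fun x => ∑ l, ψ l (inner ℝ (a l) x) * inner ℝ (m l) x) +
      C * K * J a U fun x => 1 + ∑ l, w l (inner ℝ (a l) x)

/-- STEP: one rotation. -/
def ST_STEP : Prop := ∀ (n k : ℕ) (a m : Fin n → E k) (φ : Fin n → ℝ → ℝ) (c L α K B : ℝ)
  (U ψ w : Fin n → ℝ → ℝ), Sp a → FH c L φ → PF c K α U ψ w →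
  (∀ z, J a (rU U (bb a z)) (fun x => ∑ l, φ l (rW w (bb a z) l (inner ℝ (a l) x))) ≤
      J a (rU U (bb a z)) (fun x => ∑ l, rP ψ (bb a z) l (inner ℝ (a l) x) * inner ℝ (m l) x) +
      B * J a (rU U (bb a z)) fun x => 1 + ∑ l, rW w (bb a z) l (inner ℝ (a l) x)) →
  J a U (fun x => ∑ l, φ l (w l (inner ℝ (a l) x))) ≤
    J a U (fun x => ∑ l, ψ l (inner ℝ (a l) x) * inner ℝ (m l) x) +
    B * J a U fun x => 1 + ∑ l, w l (inner ℝ (a l) x)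

/-- RPI: the rotation principle. -/
def ST_RPI : Prop := ∀ (n k : ℕ) (a m : Fin n → E k) (φ : Fin n → ℝ → ℝ) (c L α K : ℝ)
  (U ψ w : Fin n → ℝ → ℝ), Sp a → 0 ≤ L → GH a m φ → FH c L φ → PF c K α U ψ w →
  J a U (fun x => ∑ l, φ l (w l (inner ℝ (a l) x))) ≤
    J a U fun x => ∑ l, ψ l (inner ℝ (a l) x) * inner ℝ (m l) x

/-! ### C. The Brascamp-Lieb inequality -/

/-- BLB: on a ball. -/
def ST_BLB : Prop := ∀ (n k : ℕ) (a : Fin n → E k) (c K α R C : ℝ) (U ψ w : Fin n → ℝ → ℝ)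
  (f : E k → ℝ) (b : Fin n → E k → ℝ), Sp a → PF c K α U ψ w → Continuous f →
  (∀ l, Continuous (b l)) → (∀ x h : E k, ‖x‖ ≤ R → ‖x + h‖ ≤ R →
    |f (x + h) - f x - ∑ l, b l x * inner ℝ (a l) h| ≤ C * ‖h‖ ^ (1 + α)) →
  (∫ x in Metric.closedBall (0 : E k) R, Real.exp (-(VV a U x))) *
    (∫ x in Metric.closedBall (0 : E k) R, f x ^ 2 * Real.exp (-(VV a U x))) -
    (∫ x in Metric.closedBall (0 : E k) R, f x * Real.exp (-(VV a U x))) ^ 2 ≤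
  (∫ x in Metric.closedBall (0 : E k) R, Real.exp (-(VV a U x))) *
    ∫ x in Metric.closedBall (0 : E k) R,
      (∑ l, b l x ^ 2 / w l (inner ℝ (a l) x)) * Real.exp (-(VV a U x))

/-- BLL: on the whole space. -/
def ST_BLL : Prop := ∀ (n k : ℕ) (a : Fin n → E k) (c K α : ℝ) (U ψ w : Fin n → ℝ → ℝ)
  (f : E k → ℝ) (b : Fin n → E k → ℝ), Sp a → PF c K α U ψ w → PG f → (∀ l, PG (b l)) →
  TH a α f b →
  J a U (fun _ => 1) * J a U (fun x => f x ^ 2) - J a U f ^ 2 ≤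
    J a U (fun _ => 1) * J a U fun x => ∑ l, b l x ^ 2 / w l (inner ℝ (a l) x)

/-- EBL: the version for even functions. -/
def ST_EBL : Prop := ∀ (n k : ℕ) (a : Fin n → E k) (c K α : ℝ) (U ψ w : Fin n → ℝ → ℝ)
  (f : E k → ℝ) (b : Fin n → E k → ℝ), Sp a → PF c K α U ψ w → PG f → (∀ l, PG (b l)) →
  TH a α f b → (∀ x, f (-x) = f x) → (∀ l x, b l (-x) = -b l x) →
  J a U (fun _ => 1) * J a U (fun x => f x ^ 2) - J a U f ^ 2 ≤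
    ∑ l, J a U (fun x => b l x ^ 2) * J a U fun x => (w l (inner ℝ (a l) x))⁻¹

/-! ### D. Linear algebra -/

/-- BQ: the dual form of a quadratic form. -/
def ST_BQ : Prop := ∀ (n k : ℕ) (a : Fin n → E k) (ω β : Fin n → ℝ) (X : E k →ₗ[ℝ] E k),
  (∀ l, 0 < ω l) → (∀ y, X (∑ l, (ω l * inner ℝ (a l) y) • a l) = y) →
  inner ℝ (X (∑ l, β l • a l)) (∑ l, β l • a l) ≤ ∑ l, β l ^ 2 / ω l

/-- GAQ: the Gaussian value. -/
def ST_GAQ : Prop := ∀ (n k : ℕ) (s v ω : Fin n → ℝ) (a : Fin n → E k) (X : E k →ₗ[ℝ] E k),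
  (∀ l, 0 < s l) → Iso s a → (∀ l, 0 < ω l) →
  (∀ y, X (∑ l, (ω l * inner ℝ (a l) y) • a l) = y) →
  ∑ l, (ω l - 2 * ((ω l - s l) ^ 2 / ω l)) * inner ℝ (X (nv s v a l)) (nv s v a l) ≤
    ∑ l, ω l * inner ℝ (X (a l)) (mv s v a l)

/-- GAU: the concave minorant. -/
def ST_GAU : Prop := ∀ (n k : ℕ) (s v : Fin n → ℝ) (a : Fin n → E k), (∀ l, 0 < s l) → Iso s a →
  GH a (mv s v a) (ph s v a)

/-- PHF: regularity of the minorant. -/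
def ST_PHF : Prop := ∀ (n k : ℕ) (s v : Fin n → ℝ) (a : Fin n → E k) (c : ℝ), (∀ l, 0 < s l) →
  0 < c → ∃ L : ℝ, 0 ≤ L ∧ FH c L (ph s v a)

/-! ### E. One-dimensional estimates -/

/-- MAR: the law of a linear form. -/
def ST_MAR : Prop := ∀ (n k : ℕ) (a : Fin n → E k) (c K α : ℝ) (U ψ w : Fin n → ℝ → ℝ) (e : E k),
  Sp a → PF c K α U ψ w → e ≠ 0 → ∃ g : ℝ → ℝ, Measurable g ∧ (∀ t, 0 < g t) ∧
  (∀ t, g (-t) = g t) ∧ ConcaveOn ℝ Set.univ (fun t => Real.log (g t)) ∧ Integrable g ∧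
  ∀ F : ℝ → ℝ, Measurable F →
    (Integrable (fun t => F t * g t) ↔
      Integrable fun x : E k => F (inner ℝ e x) * Real.exp (-(VV a U x))) ∧
    J a U (fun x => F (inner ℝ e x)) = ∫ t, F t * g t

/-- COL: comparison with the exponential distribution in the convex order. -/
def ST_COL : Prop := ∀ (g φ : ℝ → ℝ) (q M : ℝ), 0 < q → Measurable g → (∀ t, 0 < t → 0 < g t) →
  ConcaveOn ℝ (Set.Ioi 0) (fun t => Real.log (g t)) → IntegrableOn g (Set.Ioi 0) →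
  ∫ t in Set.Ioi (0 : ℝ), g t = 1 → IntegrableOn (fun t => t ^ q * g t) (Set.Ioi 0) →
  M = ∫ t in Set.Ioi (0 : ℝ), t ^ q * g t →
  ConvexOn ℝ (Set.Ioi 0) φ → IntegrableOn (fun t => φ (t ^ q / M) * g t) (Set.Ioi 0) →
  IntegrableOn (fun t => φ (t ^ q / Real.Gamma (1 + q)) * Real.exp (-t)) (Set.Ioi 0) →
  ∫ t in Set.Ioi (0 : ℝ), φ (t ^ q / M) * g t ≤
    ∫ t in Set.Ioi (0 : ℝ), φ (t ^ q / Real.Gamma (1 + q)) * Real.exp (-t)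

/-- GAM: numerical values of the Gamma function. -/
def ST_GAM : Prop :=
  Real.Gamma (4 / 5) * Real.Gamma (6 / 5) ≤ 107 / 100 ∧
  Real.Gamma (3 / 5) * Real.Gamma (6 / 5) ^ 2 ≤ 127 / 100 ∧
  Real.Gamma (7 / 5) / Real.Gamma (6 / 5) ^ 2 + 2
    - 4 * (Real.Gamma (4 / 5) * Real.Gamma (6 / 5))
    + Real.Gamma (3 / 5) * Real.Gamma (6 / 5) ^ 2 ≤ 1 / 25 ∧
  Real.Gamma (9 / 5) / Real.Gamma (6 / 5) ^ 4 - 4 * (Real.Gamma (8 / 5) / Real.Gamma (6 / 5) ^ 3)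
    + 6 * (Real.Gamma (7 / 5) / Real.Gamma (6 / 5) ^ 2) - 3 ≤ 1 / 50

/-- MW: moments of `q = |⟨e, x⟩|^(1/5)`. -/
def ST_MW : Prop := ∀ (n k : ℕ) (a : Fin n → E k) (c K α : ℝ) (U ψ w : Fin n → ℝ → ℝ) (e : E k),
  Sp a → PF c K α U ψ w → e ≠ 0 → ∀ (q : E k → ℝ) (M : ℝ),
  (q = fun x => |inner ℝ e x| ^ (1 / 5 : ℝ)) → M = Av a U q →
  0 < M ∧
  Integrable (fun x => (q x)⁻¹ * Real.exp (-(VV a U x))) ∧
  Integrable (fun x => ((q x)⁻¹) ^ 2 * Real.exp (-(VV a U x))) ∧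
  Av a U (fun x => M / q x) ≤ 107 / 100 ∧
  Av a U (fun x => (M / q x) ^ 2) ≤ 127 / 100 ∧
  Av a U (fun x => (q x / M - 2 + M / q x) ^ 2) ≤ 1 / 25 ∧
  Av a U (fun x => (q x / M - 1) ^ 4) ≤ 1 / 50

/-- LM: moments of linear forms. -/
def ST_LM : Prop := ∀ (n k : ℕ) (a : Fin n → E k) (c K α : ℝ) (U ψ w : Fin n → ℝ → ℝ) (e : E k),
  Sp a → PF c K α U ψ w →
  Av a U (fun x => inner ℝ e x ^ 2) ≤ 2 * Av a U (fun x => |inner ℝ e x|) ^ 2 ∧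
  Av a U (fun x => inner ℝ e x ^ 4) ≤ 6 * Av a U (fun x => inner ℝ e x ^ 2) ^ 2

/-! ### F. The potential `|t|^(11/5) + c t^2` -/

/-- UC: it is in the class. -/
def ST_UC : Prop := ∀ (n : ℕ) (c : ℝ), 0 < c →
  PF (2 * c) (66 / 25) (1 / 5) (cf (n := n) (Uc c)) (cf (Pc c)) (cf (Wc c))

/-- WB: moments of the second derivative. -/
def ST_WB : Prop := ∀ (n k : ℕ) (a : Fin n → E k) (c : ℝ) (l : Fin n) (s : ℝ), Sp a → 0 < c →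
  s = Av a (cf (Uc c)) (fun x => Wc c (inner ℝ (a l) x)) →
  0 < s ∧
  Av a (cf (Uc c)) (fun x => s / Wc c (inner ℝ (a l) x)) ≤ 27 / 25 ∧
  Av a (cf (Uc c)) (fun x => (s / Wc c (inner ℝ (a l) x)) ^ 2) ≤ 32 / 25 ∧
  Av a (cf (Uc c)) (fun x => (Wc c (inner ℝ (a l) x) / s - 2 +
    s / Wc c (inner ℝ (a l) x)) ^ 2) ≤ 1 / 25 ∧
  Av a (cf (Uc c)) (fun x => (Wc c (inner ℝ (a l) x) / s - 1) ^ 4) ≤ 1 / 50

/-! ### G. The estimates in isotropic position -/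

/-- the standing assumptions -/
structure Pos {n k : ℕ} (c : ℝ) (s : Fin n → ℝ) (a : Fin n → E k) : Prop where
  c0 : 0 < c
  sp : Sp a
  sd : ∀ l, s l = Av a (cf (Uc c)) (fun x => Wc c (inner ℝ (a l) x))
  iso : Iso s a

/-- the error function -/
noncomputable def rr {n k : ℕ} (c : ℝ) (s v : Fin n → ℝ) (a : Fin n → E k) (x : E k) : ℝ :=
  ∑ l, Pc c (inner ℝ (a l) x) * inner ℝ (nv s v a l) x

/-- DID: the identity. -/
def ST_DID : Prop := ∀ (n k : ℕ) (a : Fin n → E k) (c : ℝ) (s v : Fin n → ℝ), Pos c s a →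
  Av a (cf (Uc c)) (fun x => ∑ l, v l ^ 2 * (inner ℝ (a l) x * Pc c (inner ℝ (a l) x) +
    inner ℝ (a l) x ^ 2 * Wc c (inner ℝ (a l) x))) -
    (Av a (cf (Uc c)) (fun x => (∑ l, v l * (inner ℝ (a l) x * Pc c (inner ℝ (a l) x))) ^ 2) -
      Av a (cf (Uc c)) (fun x => ∑ l, v l * (inner ℝ (a l) x * Pc c (inner ℝ (a l) x))) ^ 2) =
  Av a (cf (Uc c)) (fun x => ∑ l, Wc c (inner ℝ (a l) x) * inner ℝ (nv s v a l) x ^ 2) +
    Av a (cf (Uc c)) (fun x => ∑ l, Pc c (inner ℝ (a l) x) * inner ℝ (mv s v a l) x) -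
    (Av a (cf (Uc c)) (fun x => rr c s v a x ^ 2) - Av a (cf (Uc c)) (rr c s v a) ^ 2)

/-- QB: the second term. -/
def ST_QB : Prop := ∀ (n k : ℕ) (a : Fin n → E k) (c : ℝ) (s v : Fin n → ℝ), Pos c s a →
  137 / 250 * NN s v a ≤
    Av a (cf (Uc c)) (fun x => ∑ l, Pc c (inner ℝ (a l) x) * inner ℝ (mv s v a l) x)

/-- CR: second moments of linear forms. -/
def ST_CR : Prop := ∀ (n k : ℕ) (a : Fin n → E k) (c : ℝ) (s : Fin n → ℝ) (e : E k), Pos c s a →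
  ‖e‖ ^ 2 ≤ Av a (cf (Uc c)) (fun x => inner ℝ e x ^ 2) ∧
  Av a (cf (Uc c)) (fun x => inner ℝ e x ^ 2) ≤ 27 / 25 * ‖e‖ ^ 2

/-- LB: the first term. -/
def ST_LB : Prop := ∀ (n k : ℕ) (a : Fin n → E k) (c : ℝ) (s v : Fin n → ℝ), Pos c s a →
  25 / 54 * NN s v a ≤
    Av a (cf (Uc c)) (fun x => ∑ l, Wc c (inner ℝ (a l) x) * inner ℝ (nv s v a l) x ^ 2)

/-- VB: the third term. -/
def ST_VB : Prop := ∀ (n k : ℕ) (a : Fin n → E k) (c : ℝ) (s v : Fin n → ℝ), Pos c s a →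
  Av a (cf (Uc c)) (fun x => rr c s v a x ^ 2) - Av a (cf (Uc c)) (rr c s v a) ^ 2 ≤
    87 / 100 * NN s v a

/-- ASM: the inequality in isotropic position. -/
def ST_ASM : Prop := ∀ (n k : ℕ) (a : Fin n → E k) (c : ℝ) (s v : Fin n → ℝ), Pos c s a →
  Av a (cf (Uc c)) (fun x => (∑ l, v l * (inner ℝ (a l) x * Pc c (inner ℝ (a l) x))) ^ 2) -
      Av a (cf (Uc c)) (fun x => ∑ l, v l * (inner ℝ (a l) x * Pc c (inner ℝ (a l) x))) ^ 2 ≤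
    Av a (cf (Uc c)) (fun x => ∑ l, v l ^ 2 * (inner ℝ (a l) x * Pc c (inner ℝ (a l) x) +
    inner ℝ (a l) x ^ 2 * Wc c (inner ℝ (a l) x)))

/-! ### H. Conclusion -/

/-- PSN: isotropic position. -/
def ST_PSN : Prop := ∀ (n k : ℕ) (a : Fin n → E k) (s : Fin n → ℝ), Sp a → (∀ l, 0 < s l) →
  ∃ (T : E k ≃ₗ[ℝ] E k) (a' : Fin n → E k), (∀ l x, inner ℝ (a' l) x = inner ℝ (a l) (T x)) ∧
    Sp a' ∧ Iso s a'

/-- CHG: averages do not change. -/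
def ST_CHG : Prop := ∀ (n k : ℕ) (a a' : Fin n → E k) (U : Fin n → ℝ → ℝ) (T : E k ≃ₗ[ℝ] E k),
  (∀ l x, inner ℝ (a' l) x = inner ℝ (a l) (T x)) →
  ∀ F : E k → ℝ, Av a' U (fun x => F (T x)) = Av a U F

/-- INC: the inequality for all spanning families. -/
def ST_INC : Prop := ∀ (n k : ℕ) (a : Fin n → E k) (c : ℝ) (v : Fin n → ℝ), Sp a → 0 < c →
  Av a (cf (Uc c)) (fun x => (∑ l, v l * (inner ℝ (a l) x * Pc c (inner ℝ (a l) x))) ^ 2) -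
      Av a (cf (Uc c)) (fun x => ∑ l, v l * (inner ℝ (a l) x * Pc c (inner ℝ (a l) x))) ^ 2 ≤
    Av a (cf (Uc c)) (fun x => ∑ l, v l ^ 2 * (inner ℝ (a l) x * Pc c (inner ℝ (a l) x) +
    inner ℝ (a l) x ^ 2 * Wc c (inner ℝ (a l) x)))

/-- LOC: the inequality for the exponent 11/5. -/
def ST_LOC : Prop := ∀ (n k : ℕ) (a : Fin n → E k) (v : Fin n → ℝ), Sp a →
  (∫ y, (∑ i, v i * |inner ℝ (a i) y| ^ (11 / 5 : ℝ)) ^ 2 *
      Real.exp (-∑ i, |inner ℝ (a i) y| ^ (11 / 5 : ℝ))) *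
    (∫ y, Real.exp (-∑ i, |inner ℝ (a i) y| ^ (11 / 5 : ℝ))) -
    (∫ y, (∑ i, v i * |inner ℝ (a i) y| ^ (11 / 5 : ℝ)) *
      Real.exp (-∑ i, |inner ℝ (a i) y| ^ (11 / 5 : ℝ))) ^ 2 ≤
  (∫ y, (∑ i, v i ^ 2 * |inner ℝ (a i) y| ^ (11 / 5 : ℝ)) *
      Real.exp (-∑ i, |inner ℝ (a i) y| ^ (11 / 5 : ℝ))) *
    ∫ y, Real.exp (-∑ i, |inner ℝ (a i) y| ^ (11 / 5 : ℝ))

/-- SEC: log-concavity of the integral. -/
def ST_SEC : Prop := ∀ (n k : ℕ) (a : Fin n → E k) (τ v : Fin n → ℝ), Sp a →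
  ConcaveOn ℝ Set.univ fun t => Real.log (∫ y, wt a (11 / 5) τ v t y)

open Pool.Agent.Helper86.LP in
/-- FIN: the theorem. -/
def ST_FIN : Prop := ∀ (p : ℝ), 1 ≤ p → p ≤ 11 / 5 → ∀ (n : ℕ)
  (H : Submodule ℝ (EuclideanSpace ℝ (Fin n))), IsLogConcave (sectionVolume p H)

end Pool.Agent.Helper67.DF
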